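import Pool.Agent.Helper13_FK.Stmts

/-!
# Squad FK, module ZER: the degenerate lines
-/

set_option autoImplicit false

namespace Pool.Agent.FK.H27

open NumberField Polynomial Module

section

variable {ι : Type} (K : ι → Type) [∀ a, Field (K a)] [∀ a, NumberField (K a)]

theorem cj_add (e f : RR K) (i : Emb K) : cj K (e + f) i = cj K e i + cj K f i := by
  change i.2 (algebraMap (𝓞 (K i.1)) (K i.1) (e i.1 + f i.1)) = _
  rw [map_add, map_add]
  rfl

theorem cj_zsmul (n : ℤ) (e : RR K) (i : Emb K) : cj K (n • e) i = n * cj K e i := by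
  change i.2 (algebraMap (𝓞 (K i.1)) (K i.1) (n • e i.1)) = _
  rw [map_zsmul, map_zsmul, zsmul_eq_mul]
  rfl

theorem cj_pow (e : RR K) (m : ℕ) (i : Emb K) : cj K (e ^ m) i = cj K e i ^ m := by
  change i.2 (algebraMap (𝓞 (K i.1)) (K i.1) (e i.1 ^ m)) = _
  rw [map_pow, map_pow]
  rfl

variable {K}

/-- a nonzero functional does not vanish at some power of `v` -/
theorem exists_pow [Fintype ι] {v : RR K} (hv : Function.Injective (cj K v)) {c : Emb K → ℂ}
    {q₀ : Emb K} (hc : c q₀ ≠ 0) : ∃ m : ℕ, ∑ q, c q * cj K (v ^ m) q ≠ 0 := by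
  classical
  by_contra hcon
  have h1 : ∀ m : ℕ, ∑ q, c q * cj K v q ^ m = 0 := by
    intro m
    by_contra h
    apply hcon
    refine ⟨m, ?_⟩
    simp only [cj_pow]
    exact h
  have h2 : ∀ P : ℂ[X], ∑ q, c q * P.eval (cj K v q) = 0 := by
    intro P
    simp only [eval_eq_sum_range, Finset.mul_sum]
    rw [Finset.sum_comm]
    refine Finset.sum_eq_zero fun m _ => ?_
    have h3 : ∀ q, c q * (P.coeff m * cj K v q ^ m) = P.coeff m * (c q * cj K v q ^ m) := by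
      intro q
      ring
    simp only [h3]
    rw [← Finset.mul_sum, h1 m, mul_zero]
  have h3 := h2 (Lagrange.basis Finset.univ (cj K v) q₀)
  rw [Finset.sum_eq_single q₀] at h3
  · rw [Lagrange.eval_basis_self hv.injOn (Finset.mem_univ _), mul_one] at h3
    exact hc h3
  · intro q _ hq
    rw [Lagrange.eval_basis_of_ne (Ne.symm hq) (Finset.mem_univ _), mul_zero]
  · intro h
    exact absurd (Finset.mem_univ _) h

/-- the zeros of a functional in the box -/
theorem zeros (avg : AvgStmt) (box : BoxStmt) [Fintype ι] {v : RR K}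
    (hv : Function.Injective (cj K v)) {c : Emb K → ℂ} {q₀ : Emb K} (hc : c q₀ ≠ 0) :
    ∃ C : ℝ, ∀ H : ℝ, 1 ≤ H →
      ({e : RR K | e ∈ Box K H ∧ ∑ q, c q * cj K e q = 0}.ncard : ℝ) ≤
        C * H ^ ((Fintype.card (Emb K) : ℝ) - 1) := by
  classical
  obtain ⟨m, hm⟩ := exists_pow hv hc
  obtain ⟨w, hw⟩ : ∃ w : RR K, w = v ^ m := ⟨_, rfl⟩
  rw [← hw] at hm
  obtain ⟨b, hb⟩ : ∃ b : ℝ, b = ∑ i, ‖cj K w i‖ := ⟨_, rfl⟩
  have hb0 : 0 ≤ b := by
    rw [hb]
    exact Finset.sum_nonneg fun i _ => norm_nonneg _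
  have hbi : ∀ i, ‖cj K w i‖ ≤ b := by
    intro i
    rw [hb]
    exact Finset.single_le_sum (f := fun i => ‖cj K w i‖) (fun i _ => norm_nonneg _)
      (Finset.mem_univ i)
  obtain ⟨n, hn⟩ : ∃ n, n = Fintype.card (Emb K) := ⟨_, rfl⟩
  refine ⟨(3 * (b + 1)) ^ n * 2 ^ n, fun H hH => ?_⟩
  obtain ⟨N, hN⟩ : ∃ N : ℕ, N = ⌈H⌉₊ := ⟨_, rfl⟩
  have hHN : H ≤ N := by
    rw [hN]
    exact Nat.le_ceil H
  have hN2 : (N : ℝ) ≤ 2 * H := by
    have h1 : (⌈H⌉₊ : ℝ) < H + 1 := Nat.ceil_lt_add_one (by linarith)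
    rw [hN]
    linarith
  have hN1 : 1 ≤ N := by
    have : (1 : ℝ) ≤ N := hH.trans hHN
    exact_mod_cast this
  have key := avg ι K w b hb0 hbi {e : RR K | ∑ q, c q * cj K e q = 0} ∅ N 1 hN1 zero_le_one ?_
  · rw [Set.empty_inter, Set.ncard_empty, Nat.cast_zero, zero_mul, add_zero, mul_one,
      ← hn] at key
    have hfin : ({e : RR K | ∑ q, c q * cj K e q = 0} ∩ Box K N).Finite :=
      ((box ι K).1 N (Nat.cast_nonneg N)).1.subset Set.inter_subset_right
    have hle : ({e : RR K | e ∈ Box K H ∧ ∑ q, c q * cj K e q = 0}.ncard : ℝ) ≤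
        (({e : RR K | ∑ q, c q * cj K e q = 0} ∩ Box K N).ncard : ℝ) := by
      refine Nat.cast_le.mpr (Set.ncard_le_ncard ?_ hfin)
      rintro e ⟨he, h0⟩
      exact ⟨h0, fun i => (he i).trans hHN⟩
    have hH0 : 0 < H := by linarith
    have hNpos : (0 : ℝ) < N := hH0.trans_le hHN
    have h1 : (({e : RR K | ∑ q, c q * cj K e q = 0} ∩ Box K N).ncard : ℝ) ≤
        (3 * (b + 1) * N) ^ n / N := by
      rw [le_div_iff₀ hNpos]
      exact key
    have h2 : (3 * (b + 1) * (N : ℝ)) ^ n / N ≤ (3 * (b + 1) * (2 * H)) ^ n / H := by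
      have h3 : (3 * (b + 1) * (N : ℝ)) ^ n ≤ (3 * (b + 1) * (2 * H)) ^ n := by
        refine pow_le_pow_left₀ (by positivity) ?_ n
        exact mul_le_mul_of_nonneg_left hN2 (by positivity)
      exact div_le_div₀ (by positivity) h3 hH0 hHN
    have h3 : (3 * (b + 1) * (2 * H)) ^ n / H =
        (3 * (b + 1)) ^ n * 2 ^ n * H ^ ((Fintype.card (Emb K) : ℝ) - 1) := by
      rw [Real.rpow_sub hH0, Real.rpow_one, ← hn, Real.rpow_natCast, mul_pow, mul_pow]
      ring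
    rw [← h3]
    exact hle.trans (h1.trans h2)
  · intro e _ _
    have h1 : {t : ℕ | t < N ∧ e + (t : ℤ) • w ∈ {e : RR K | ∑ q, c q * cj K e q = 0}}.ncard
        ≤ 1 := by
      have hf : {t : ℕ | t < N ∧ e + (t : ℤ) • w ∈
          {e : RR K | ∑ q, c q * cj K e q = 0}}.Finite :=
        (Set.finite_lt_nat N).subset fun t ht => ht.1
      rw [Set.ncard_le_one hf]
      rintro t ⟨_, ht⟩ s ⟨_, hs⟩
      have hlin : ∀ t : ℕ, ∑ q, c q * cj K (e + (t : ℤ) • w) q =
          (∑ q, c q * cj K e q) + t * ∑ q, c q * cj K w q := by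
        intro t
        rw [Finset.mul_sum, ← Finset.sum_add_distrib]
        refine Finset.sum_congr rfl fun q _ => ?_
        rw [cj_add, cj_zsmul, Int.cast_natCast]
        ring
      have ht' : ∑ q, c q * cj K (e + (t : ℤ) • w) q = 0 := ht
      have hs' : ∑ q, c q * cj K (e + (s : ℤ) • w) q = 0 := hs
      rw [hlin] at ht' hs'
      have h5 : ((t : ℂ) - s) * ∑ q, c q * cj K w q = 0 := by
        linear_combination ht' - hs'
      have h6 := (mul_eq_zero.mp h5).resolve_right hm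
      have h7 : (t : ℂ) = s := sub_eq_zero.mp h6
      exact_mod_cast h7
    exact_mod_cast h1

end

/-- ZER -/
theorem zer (avg : AvgStmt) (box : BoxStmt) : ZerStmt := by
  intro ι _ K _ _ v hv
  classical
  -- the bad tuples
  have hx : ∀ x : (Emb K × Emb K) × (Emb K × Emb K), ∃ C : ℝ, ∀ H : ℝ, 1 ≤ H →
      ({e : RR K | e ∈ Box K H ∧ x.1.1 ≠ x.1.2 ∧ x.2.1 ≠ x.2.2 ∧
        ¬ (x.1.1 = x.2.1 ∧ x.1.2 = x.2.2) ∧ ¬ (x.1.1 = x.2.2 ∧ x.1.2 = x.2.1) ∧
        (cj K e x.1.2 - cj K e x.1.1) * (cj K v x.2.2 - cj K v x.2.1) =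
          (cj K e x.2.2 - cj K e x.2.1) * (cj K v x.1.2 - cj K v x.1.1)}.ncard : ℝ) ≤
        C * H ^ ((Fintype.card (Emb K) : ℝ) - 1) := by
    rintro ⟨⟨i, j⟩, k, l⟩
    simp only
    by_cases h1 : i = j
    · refine ⟨0, fun H _ => ?_⟩
      have : {e : RR K | e ∈ Box K H ∧ i ≠ j ∧ k ≠ l ∧ ¬ (i = k ∧ j = l) ∧ ¬ (i = l ∧ j = k) ∧
        (cj K e j - cj K e i) * (cj K v l - cj K v k) =
          (cj K e l - cj K e k) * (cj K v j - cj K v i)} = ∅ := by
        refine Set.eq_empty_of_forall_notMem ?_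
        rintro e ⟨_, h, _⟩
        exact h h1
      rw [this, Set.ncard_empty, Nat.cast_zero, zero_mul]
    by_cases h2 : k = l
    · refine ⟨0, fun H _ => ?_⟩
      have : {e : RR K | e ∈ Box K H ∧ i ≠ j ∧ k ≠ l ∧ ¬ (i = k ∧ j = l) ∧ ¬ (i = l ∧ j = k) ∧
        (cj K e j - cj K e i) * (cj K v l - cj K v k) =
          (cj K e l - cj K e k) * (cj K v j - cj K v i)} = ∅ := by
        refine Set.eq_empty_of_forall_notMem ?_
        rintro e ⟨_, _, h, _⟩
        exact h h2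
      rw [this, Set.ncard_empty, Nat.cast_zero, zero_mul]
    by_cases h3 : (i = k ∧ j = l) ∨ (i = l ∧ j = k)
    · refine ⟨0, fun H _ => ?_⟩
      have : {e : RR K | e ∈ Box K H ∧ i ≠ j ∧ k ≠ l ∧ ¬ (i = k ∧ j = l) ∧ ¬ (i = l ∧ j = k) ∧
        (cj K e j - cj K e i) * (cj K v l - cj K v k) =
          (cj K e l - cj K e k) * (cj K v j - cj K v i)} = ∅ := by
        refine Set.eq_empty_of_forall_notMem ?_
        rintro e ⟨_, _, _, h, h', _⟩
        exact h3.elim h h'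
      rw [this, Set.ncard_empty, Nat.cast_zero, zero_mul]
    -- the functional
    obtain ⟨c, hc⟩ : ∃ c : Emb K → ℂ, c = fun q =>
        ((if q = j then 1 else 0) - (if q = i then 1 else 0)) * (cj K v l - cj K v k) -
        ((if q = l then 1 else 0) - (if q = k then 1 else 0)) * (cj K v j - cj K v i) :=
      ⟨_, rfl⟩
    have hsum : ∀ e : RR K, ∑ q, c q * cj K e q =
        (cj K e j - cj K e i) * (cj K v l - cj K v k) -
          (cj K e l - cj K e k) * (cj K v j - cj K v i) := by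
      intro e
      rw [hc]
      simp only [sub_mul, ite_mul, one_mul, zero_mul, Finset.sum_sub_distrib, Finset.sum_ite_eq',
        Finset.mem_univ, if_true]
      ring
    have hkl : cj K v l - cj K v k ≠ 0 := by
      intro h
      exact h2 (hv (sub_eq_zero.mp h)).symm
    have hq : ∃ q₀, c q₀ ≠ 0 := by
      by_cases hik : i ≠ k ∧ i ≠ l
      · refine ⟨i, ?_⟩
        have h5 : c i = -(cj K v l - cj K v k) := by
          rw [hc]
          simp only [h1, hik.1, hik.2, if_true, if_false]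
          ring
        rw [h5]
        exact neg_ne_zero.mpr hkl
      · refine ⟨j, ?_⟩
        have hjk : j ≠ k ∧ j ≠ l := by
          constructor
          · intro hjk
            apply hik
            constructor
            · intro hik'
              exact h1 (hik'.trans hjk.symm)
            · intro hil
              exact h3 (Or.inr ⟨hil, hjk⟩)
          · intro hjl
            apply hik
            constructor
            · intro hik'
              exact h3 (Or.inl ⟨hik', hjl⟩)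
            · intro hil
              exact h1 (hil.trans hjl.symm)
        have h5 : c j = cj K v l - cj K v k := by
          have h6 : ¬ j = i := fun h => h1 h.symm
          rw [hc]
          simp only [h6, hjk.1, hjk.2, if_true, if_false]
          ring
        rw [h5]
        exact hkl
    obtain ⟨q₀, hq₀⟩ := hq
    obtain ⟨C, hC⟩ := zeros avg box hv hq₀
    refine ⟨C, fun H hH => ?_⟩
    refine le_trans ?_ (hC H hH)
    have hfin : {e : RR K | e ∈ Box K H ∧ ∑ q, c q * cj K e q = 0}.Finite :=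
      ((box ι K).1 H (by linarith)).1.subset fun e he => he.1
    refine Nat.cast_le.mpr (Set.ncard_le_ncard ?_ hfin)
    rintro e ⟨he, _, _, _, _, h⟩
    refine ⟨he, ?_⟩
    rw [hsum, h, sub_self]
  choose C hC using hx
  refine ⟨∑ x, C x, fun H hH => ?_⟩
  have hsub : {e : RR K | e ∈ Box K H ∧ ¬ NonDeg (cj K e) (cj K v)} ⊆
      ⋃ x : (Emb K × Emb K) × (Emb K × Emb K), {e : RR K | e ∈ Box K H ∧ x.1.1 ≠ x.1.2 ∧
        x.2.1 ≠ x.2.2 ∧ ¬ (x.1.1 = x.2.1 ∧ x.1.2 = x.2.2) ∧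
        ¬ (x.1.1 = x.2.2 ∧ x.1.2 = x.2.1) ∧
        (cj K e x.1.2 - cj K e x.1.1) * (cj K v x.2.2 - cj K v x.2.1) =
          (cj K e x.2.2 - cj K e x.2.1) * (cj K v x.1.2 - cj K v x.1.1)} := by
    rintro e ⟨he, hnd⟩
    unfold NonDeg at hnd
    push Not at hnd
    obtain ⟨i, j, k, l, h1, h2, h3, h4, h5⟩ := hnd
    rw [Set.mem_iUnion]
    exact ⟨((i, j), (k, l)), he, h1, h2, fun h => h3 h.1 h.2, fun h => h4 h.1 h.2, h5⟩
  have hbox := ((box ι K).1 H (by linarith)).1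
  have hfin : (⋃ x : (Emb K × Emb K) × (Emb K × Emb K), {e : RR K | e ∈ Box K H ∧
        x.1.1 ≠ x.1.2 ∧ x.2.1 ≠ x.2.2 ∧ ¬ (x.1.1 = x.2.1 ∧ x.1.2 = x.2.2) ∧
        ¬ (x.1.1 = x.2.2 ∧ x.1.2 = x.2.1) ∧
        (cj K e x.1.2 - cj K e x.1.1) * (cj K v x.2.2 - cj K v x.2.1) =
          (cj K e x.2.2 - cj K e x.2.1) * (cj K v x.1.2 - cj K v x.1.1)}).Finite :=
    hbox.subset (Set.iUnion_subset fun x e he => he.1)
  have h1 := Set.ncard_le_ncard hsub hfin
  have h2 := Set.ncard_iUnion_le_of_fintype (fun x : (Emb K × Emb K) × (Emb K × Emb K) =>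
    {e : RR K | e ∈ Box K H ∧
        x.1.1 ≠ x.1.2 ∧ x.2.1 ≠ x.2.2 ∧ ¬ (x.1.1 = x.2.1 ∧ x.1.2 = x.2.2) ∧
        ¬ (x.1.1 = x.2.2 ∧ x.1.2 = x.2.1) ∧
        (cj K e x.1.2 - cj K e x.1.1) * (cj K v x.2.2 - cj K v x.2.1) =
          (cj K e x.2.2 - cj K e x.2.1) * (cj K v x.1.2 - cj K v x.1.1)})
  have h3 := h1.trans h2
  have h4 : ({e : RR K | e ∈ Box K H ∧ ¬ NonDeg (cj K e) (cj K v)}.ncard : ℝ) ≤
      ((∑ x : (Emb K × Emb K) × (Emb K × Emb K), {e : RR K | e ∈ Box K H ∧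
        x.1.1 ≠ x.1.2 ∧ x.2.1 ≠ x.2.2 ∧ ¬ (x.1.1 = x.2.1 ∧ x.1.2 = x.2.2) ∧
        ¬ (x.1.1 = x.2.2 ∧ x.1.2 = x.2.1) ∧
        (cj K e x.1.2 - cj K e x.1.1) * (cj K v x.2.2 - cj K v x.2.1) =
          (cj K e x.2.2 - cj K e x.2.1) * (cj K v x.1.2 - cj K v x.1.1)}.ncard : ℕ) : ℝ) :=
    Nat.cast_le.mpr h3
  refine h4.trans ?_
  rw [Nat.cast_sum, Finset.sum_mul]
  exact Finset.sum_le_sum fun x _ => hC x H hH

end Pool.Agent.FK.H27
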